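import Pool.Agent.P.MP_3c2f8c_gt.Gl.Main
import Pool.Agent.P.MP_3c2f8c_gt.Ex.Bridge
import Pool.Agent.P.MP_3c2f8c_gt.AO.XC

namespace Pool.Agent.Results.MP_3c2f8c_gt.IsoNonCommAll

open Pool.Agent.P.MP_3c2f8c_gt

theorem result :
    (∀ n : ℕ, 2 ≤ n → ∃ Γ₁ Γ₂ : Subgroup (SA.Aut n),
      SA.IsMfd Γ₁ ∧ SA.IsMfd Γ₂ ∧ SA.IsArithOuter Γ₁ ∧ SA.IsArithOuter Γ₂ ∧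
        SA.Isospectral Γ₁ Γ₂ ∧ ¬ SA.WideComm Γ₁ Γ₂) ∧
    (∀ m : ℕ, 1 ≤ m → ∃ Γ₁ Γ₂ : Subgroup (Oplus (4 * m + 1)),
      IsClosedMfd Γ₁ ∧ IsClosedMfd Γ₂ ∧ IsArithOuter m Γ₁ ∧ IsArithOuter m Γ₂ ∧
        Isospectral Γ₁ Γ₂ ∧ ¬ WideComm Γ₁ Γ₂) ∧
    ∃ Γ₁ Γ₂ : Subgroup St.E6,
      St.IsClosedMfd Γ₁ ∧ St.IsClosedMfd Γ₂ ∧ St.IsArith Γ₁ ∧ St.IsArith Γ₂ ∧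
        St.Isospectral Γ₁ Γ₂ ∧ ¬ St.WideComm Γ₁ Γ₂ :=
  ⟨fun _ => AO.mainX, main, St.main⟩

end Pool.Agent.Results.MP_3c2f8c_gt.IsoNonCommAll
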